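import Pool.Agent.Helper2.EC_C.Goals

/-! MP_ecc237_nt, Part C, packet ETA. -/

set_option autoImplicit false

open MeasureTheory Filter Topology Set

namespace ECC.PkETA

open EC237

/-- `Σ log (1 - e^{-c(n+1)y})`. -/
noncomputable def LL (c y : ℝ) : ℝ := ∑' n : ℕ, Real.log (1 - Real.exp (-(c * ((n:ℝ) + 1) * y)))

theorem abs_log_le {u v : ℝ} (h0 : 0 < u) (huv : u ≤ v) (hv : v < 1) :
    |Real.log (1 - u)| ≤ u / (1 - v) := by
  have hu1 : 0 < 1 - u := by linarith
  have hv1 : 0 < 1 - v := by linarith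
  have h1 : Real.log (1 - u) ≤ 0 := Real.log_nonpos hu1.le (by linarith)
  have h2 := Real.one_sub_inv_le_log_of_pos hu1
  rw [abs_of_nonpos h1]
  have h3 : (1 - u)⁻¹ - 1 = u / (1 - u) := by
    field_simp
    ring
  have h4 : u / (1 - u) ≤ u / (1 - v) := by
    apply div_le_div_of_nonneg_left h0.le hv1
    linarith
  linarith

theorem expn (c y : ℝ) (n : ℕ) :
    Real.exp (-(c * ((n:ℝ) + 1) * y)) = Real.exp (-(c * y)) ^ (n + 1) := by
  rw [← Real.exp_nat_mul]
  congr 1
  push_cast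
  ring

theorem q_lt {c y : ℝ} (hc : 0 < c) (hy : 0 < y) : Real.exp (-(c * y)) < 1 := by
  rw [Real.exp_lt_one_iff]
  have := mul_pos hc hy
  linarith

theorem pow_le_q {q : ℝ} (h0 : 0 < q) (h1 : q < 1) (n : ℕ) : q ^ (n + 1) ≤ q := by
  calc q ^ (n + 1) ≤ q ^ 1 := pow_le_pow_of_le_one h0.le h1.le (by omega)
    _ = q := pow_one q

theorem log_bound {c y : ℝ} (hc : 0 < c) (hy : 0 < y) (n : ℕ) :
    ‖Real.log (1 - Real.exp (-(c * ((n:ℝ) + 1) * y)))‖ ≤
      Real.exp (-(c * y)) ^ (n + 1) / (1 - Real.exp (-(c * y))) := by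
  rw [Real.norm_eq_abs, expn]
  exact abs_log_le (pow_pos (Real.exp_pos _) _) (pow_le_q (Real.exp_pos _) (q_lt hc hy) n)
    (q_lt hc hy)

theorem sum_geo {q : ℝ} (h0 : 0 < q) (h1 : q < 1) :
    HasSum (fun n : ℕ => q ^ (n + 1) / (1 - q)) (q / (1 - q) / (1 - q)) := by
  have h := (hasSum_geometric_of_lt_one h0.le h1).mul_left (q / (1 - q))
  have e : (fun n : ℕ => q / (1 - q) * q ^ n) = fun n : ℕ => q ^ (n + 1) / (1 - q) := by
    funext n
    rw [pow_succ]
    ring
  rw [e] at h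
  rwa [← div_eq_mul_inv] at h

theorem summable_LL {c y : ℝ} (hc : 0 < c) (hy : 0 < y) :
    Summable (fun n : ℕ => Real.log (1 - Real.exp (-(c * ((n:ℝ) + 1) * y)))) :=
  Summable.of_norm_bounded (sum_geo (Real.exp_pos _) (q_lt hc hy)).summable (log_bound hc hy)

theorem LL_bound {c y : ℝ} (hc : 0 < c) (hy : 0 < y) :
    ‖LL c y‖ ≤ Real.exp (-(c * y)) / (1 - Real.exp (-(c * y))) / (1 - Real.exp (-(c * y))) :=
  tsum_of_norm_bounded (sum_geo (Real.exp_pos _) (q_lt hc hy)) (log_bound hc hy)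

theorem LL_tendsto {c : ℝ} (hc : 0 < c) : Tendsto (LL c) atTop (𝓝 0) := by
  have h1 : Tendsto (fun y : ℝ => Real.exp (-(c * y))) atTop (𝓝 0) := by
    have h2 : Tendsto (fun y : ℝ => c * y) atTop atTop := tendsto_id.const_mul_atTop hc
    exact Real.tendsto_exp_neg_atTop_nhds_zero.comp h2
  have h3 : Tendsto (fun y : ℝ => Real.exp (-(c * y)) / (1 - Real.exp (-(c * y))) /
      (1 - Real.exp (-(c * y)))) atTop (𝓝 (0 / (1 - 0) / (1 - 0))) :=
    (h1.div (tendsto_const_nhds.sub h1) (by norm_num)).div (tendsto_const_nhds.sub h1)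
      (by norm_num)
  rw [zero_div, zero_div] at h3
  refine squeeze_zero_norm' ?_ h3
  filter_upwards [eventually_gt_atTop 0] with y hy
  exact LL_bound hc hy

/-- the sum of the derivatives -/
theorem GS_eq {r : ℝ} (h0 : 0 < r) (h1 : r < 1) :
    GS r = ∑' n : ℕ, ((n:ℝ) + 1) * (r ^ (n + 1) / (1 - r ^ (n + 1))) := by
  have hsum : Summable (fun p : ℕ × ℕ => ((p.2 : ℝ) + 1) * r ^ ((p.1 + 1) * (p.2 + 1))) := by
    have hA : Summable (fun m : ℕ => r ^ m) := summable_geometric_of_lt_one h0.le h1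
    have hB : Summable (fun n : ℕ => ((n:ℝ) + 1) * r ^ n) := by
      have h2 := summable_pow_mul_geometric_of_norm_lt_one (R := ℝ) 1 (r := r)
        (by rw [Real.norm_eq_abs, abs_of_pos h0]; exact h1)
      simp only [pow_one] at h2
      have := h2.add hA
      refine this.congr fun n => ?_
      ring
    have hAB := hA.mul_of_nonneg hB (fun m => pow_nonneg h0.le _)
      (fun n => mul_nonneg (by positivity) (pow_nonneg h0.le _))
    refine Summable.of_nonneg_of_le (fun p => mul_nonneg (by positivity) (pow_nonneg h0.le _))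
      (fun p => ?_) hAB
    have h3 : r ^ ((p.1 + 1) * (p.2 + 1)) ≤ r ^ (p.1 + p.2) :=
      pow_le_pow_of_le_one h0.le h1.le (by nlinarith)
    calc ((p.2 : ℝ) + 1) * r ^ ((p.1 + 1) * (p.2 + 1)) ≤ ((p.2 : ℝ) + 1) * r ^ (p.1 + p.2) :=
          mul_le_mul_of_nonneg_left h3 (by positivity)
      _ = r ^ p.1 * (((p.2:ℝ) + 1) * r ^ p.2) := by
          rw [pow_add]
          ring
  have e1 : GS r = ∑' p : ℕ × ℕ, ((p.2 : ℝ) + 1) * r ^ ((p.1 + 1) * (p.2 + 1)) := by
    rw [GS, LS]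
    refine tsum_congr fun p => ?_
    push_cast
    ring
  rw [e1]
  have hsw : Summable (fun p : ℕ × ℕ => ((p.1 : ℝ) + 1) * r ^ ((p.2 + 1) * (p.1 + 1))) :=
    (Equiv.prodComm ℕ ℕ).summable_iff.1 (by
      refine hsum.congr fun p => ?_
      simp)
  have e2 : ∑' p : ℕ × ℕ, ((p.2 : ℝ) + 1) * r ^ ((p.1 + 1) * (p.2 + 1)) =
      ∑' p : ℕ × ℕ, ((p.1 : ℝ) + 1) * r ^ ((p.2 + 1) * (p.1 + 1)) := by
    rw [← (Equiv.prodComm ℕ ℕ).tsum_eq]
    rfl
  rw [e2, hsw.tsum_prod]
  refine tsum_congr fun n => ?_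
  simp only []
  rw [tsum_mul_left]
  congr 1
  have h5 : r ^ (n + 1) < 1 := pow_lt_one₀ h0.le h1 (by omega)
  have h6 := (hasSum_geometric_of_lt_one (pow_nonneg h0.le (n + 1)) h5).mul_left (r ^ (n + 1))
  have h7 : (fun m : ℕ => r ^ ((m + 1) * (n + 1))) = fun m : ℕ => r ^ (n + 1) * (r ^ (n + 1)) ^ m := by
    funext m
    rw [← pow_succ', ← pow_mul]
    congr 1
    ring
  rw [h7, h6.tsum_eq, div_eq_mul_inv]

theorem dlin (a z : ℝ) : HasDerivAt (fun z : ℝ => -(a * z)) (-a) z := by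
  have := (hasDerivAt_id' z).const_mul (-a)
  rw [mul_one] at this
  refine this.congr_of_eventuallyEq (Eventually.of_forall fun w => ?_)
  simp

theorem LL_deriv {c y : ℝ} (hc : 0 < c) (hy : 0 < y) :
    HasDerivAt (LL c) (c * GS (Real.exp (-(c * y)))) y := by
  set y0 : ℝ := y / 2 with hy0
  have hy0pos : 0 < y0 := by positivity
  set q0 : ℝ := Real.exp (-(c * y0)) with hq0
  have hq0p : 0 < q0 := Real.exp_pos _
  have hq01 : q0 < 1 := q_lt hc hy0pos
  have hq1 : 0 < 1 - q0 := by linarith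
  have hu : Summable (fun n : ℕ => c / (1 - q0) * (((n:ℝ) + 1) * q0 ^ (n + 1))) := by
    refine Summable.mul_left _ ?_
    have h2 := summable_pow_mul_geometric_of_norm_lt_one (R := ℝ) 1 (r := q0)
        (by rw [Real.norm_eq_abs, abs_of_pos hq0p]; exact hq01)
    simp only [pow_one] at h2
    have h3 := (summable_nat_add_iff 1).2 h2
    refine h3.congr fun n => ?_
    push_cast
    ring
  have key := hasDerivAt_tsum_of_isPreconnected
    (g := fun (n : ℕ) (z : ℝ) => Real.log (1 - Real.exp (-(c * ((n:ℝ) + 1) * z))))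
    (g' := fun (n : ℕ) (z : ℝ) => (c * ((n:ℝ) + 1) * Real.exp (-(c * ((n:ℝ) + 1) * z))) /
      (1 - Real.exp (-(c * ((n:ℝ) + 1) * z))))
    hu isOpen_Ioi isPreconnected_Ioi (t := Ioi y0) (y := y) (y₀ := y) ?_ ?_
    (by rw [mem_Ioi, hy0]; linarith) (summable_LL hc hy) (by rw [mem_Ioi, hy0]; linarith)
  · have e : c * GS (Real.exp (-(c * y))) = ∑' n : ℕ,
        (c * ((n:ℝ) + 1) * Real.exp (-(c * ((n:ℝ) + 1) * y))) /
          (1 - Real.exp (-(c * ((n:ℝ) + 1) * y))) := by
      rw [GS_eq (Real.exp_pos _) (q_lt hc hy), ← tsum_mul_left]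
      refine tsum_congr fun n => ?_
      rw [expn]
      ring
    rw [e]
    exact key
  · intro n z hz
    have hz0 : 0 < z := lt_trans hy0pos hz
    have h1 : HasDerivAt (fun z : ℝ => -(c * ((n:ℝ) + 1) * z)) (-(c * ((n:ℝ) + 1))) z :=
      dlin _ _
    have h2 := (h1.exp).const_sub 1
    have h3 : (1 - Real.exp (-(c * ((n:ℝ) + 1) * z))) ≠ 0 := by
      rw [expn]
      have h4 := pow_le_q (Real.exp_pos (-(c * z))) (q_lt hc hz0) n
      have h5 := q_lt hc hz0
      intro h
      linarith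
    have h6 := h2.log h3
    have h7 : -(Real.exp (-(c * ((n:ℝ) + 1) * z)) * -(c * ((n:ℝ) + 1))) =
        c * ((n:ℝ) + 1) * Real.exp (-(c * ((n:ℝ) + 1) * z)) := by ring
    rw [h7] at h6
    exact h6
  · intro n z hz
    have hz0 : 0 < z := lt_trans hy0pos hz
    have hqz : Real.exp (-(c * z)) ≤ q0 := by
      rw [hq0, Real.exp_le_exp]
      have : y0 ≤ z := le_of_lt hz
      nlinarith
    rw [expn]
    set q : ℝ := Real.exp (-(c * z)) with hq
    have hqp : 0 < q := Real.exp_pos _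
    have hq1' : q < 1 := q_lt hc hz0
    have h4 := pow_le_q hqp hq1' n
    have h5 : 0 < 1 - q ^ (n + 1) := by linarith
    have h6 : q ^ (n + 1) ≤ q0 ^ (n + 1) := pow_le_pow_left₀ hqp.le hqz _
    rw [Real.norm_eq_abs, abs_of_nonneg (by positivity)]
    rw [div_le_iff₀ h5]
    have h7 : c / (1 - q0) * (((n:ℝ) + 1) * q0 ^ (n + 1)) * (1 - q ^ (n + 1)) =
        c * ((n:ℝ) + 1) * q0 ^ (n + 1) * ((1 - q ^ (n + 1)) / (1 - q0)) := by
      field_simp
    rw [h7]
    have h8 : 1 ≤ (1 - q ^ (n + 1)) / (1 - q0) := by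
      rw [one_le_div hq1]
      linarith
    calc c * ((n:ℝ) + 1) * q ^ (n + 1) ≤ c * ((n:ℝ) + 1) * q0 ^ (n + 1) :=
          mul_le_mul_of_nonneg_left h6 (by positivity)
      _ = c * ((n:ℝ) + 1) * q0 ^ (n + 1) * 1 := by ring
      _ ≤ _ := mul_le_mul_of_nonneg_left h8 (by positivity)

/-- the exponent -/
noncomputable def g (y : ℝ) : ℝ :=
  -(2 * Real.pi * y) + 2 * (LL (2 * Real.pi) y + LL (4 * Real.pi) y + LL (6 * Real.pi) y +
    LL (12 * Real.pi) y)

theorem ff_eq {y : ℝ} (hy : 0 < y) : ff y = Real.exp (g y) := by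
  have hpi := Real.pi_pos
  have hpos : ∀ (c : ℝ), 0 < c → ∀ n : ℕ, 0 < 1 - Real.exp (-(c * ((n:ℝ) + 1) * y)) := by
    intro c hc n
    rw [expn]
    have h4 := pow_le_q (Real.exp_pos (-(c * y))) (q_lt hc hy) n
    have h5 := q_lt hc hy
    linarith
  have h2 := hpos (2 * Real.pi) (by positivity)
  have h4 := hpos (4 * Real.pi) (by positivity)
  have h6 := hpos (6 * Real.pi) (by positivity)
  have h12 := hpos (12 * Real.pi) (by positivity)
  have s2 := summable_LL (c := 2 * Real.pi) (by positivity) hy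
  have s4 := summable_LL (c := 4 * Real.pi) (by positivity) hy
  have s6 := summable_LL (c := 6 * Real.pi) (by positivity) hy
  have s12 := summable_LL (c := 12 * Real.pi) (by positivity) hy
  set F : ℕ → ℝ := fun n => ((1 - Real.exp (-(2 * Real.pi * ((n:ℝ) + 1) * y))) *
               (1 - Real.exp (-(4 * Real.pi * ((n:ℝ) + 1) * y))) *
               (1 - Real.exp (-(6 * Real.pi * ((n:ℝ) + 1) * y))) *
               (1 - Real.exp (-(12 * Real.pi * ((n:ℝ) + 1) * y)))) ^ 2 with hF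
  have hFpos : ∀ n, 0 < F n := by
    intro n
    have := mul_pos (mul_pos (mul_pos (h2 n) (h4 n)) (h6 n)) (h12 n)
    exact pow_pos this 2
  have hlog : ∀ n, Real.log (F n) = 2 * (Real.log (1 - Real.exp (-(2 * Real.pi * ((n:ℝ) + 1) * y))) +
      Real.log (1 - Real.exp (-(4 * Real.pi * ((n:ℝ) + 1) * y))) +
      Real.log (1 - Real.exp (-(6 * Real.pi * ((n:ℝ) + 1) * y))) +
      Real.log (1 - Real.exp (-(12 * Real.pi * ((n:ℝ) + 1) * y)))) := by
    intro n
    rw [hF]
    simp only []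
    rw [Real.log_pow, Real.log_mul (mul_pos (mul_pos (h2 n) (h4 n)) (h6 n)).ne' (h12 n).ne',
      Real.log_mul (mul_pos (h2 n) (h4 n)).ne' (h6 n).ne', Real.log_mul (h2 n).ne' (h4 n).ne']
    push_cast
    ring
  have hs : Summable (fun n => Real.log (F n)) := by
    have := ((((s2.add s4).add s6).add s12).mul_left 2)
    refine this.congr fun n => ?_
    rw [hlog]
  have h := Real.rexp_tsum_eq_tprod hFpos hs
  rw [ff, ← h, ← Real.exp_add, g]
  congr 2
  rw [tsum_congr hlog, tsum_mul_left, ((s2.add s4).add s6).tsum_add s12,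
    (s2.add s4).tsum_add s6, s2.tsum_add s4]
  rfl

/-- ETA. -/
theorem eta_ : G_ETA := by
  intro y hy
  have hpi := Real.pi_pos
  refine ⟨by rw [ff_eq hy]; exact Real.exp_pos _, ?_, ?_⟩
  · have hg : HasDerivAt g (-(2 * Real.pi) + 2 * (2 * Real.pi * GS (Real.exp (-(2 * Real.pi * y))) +
        4 * Real.pi * GS (Real.exp (-(4 * Real.pi * y))) +
        6 * Real.pi * GS (Real.exp (-(6 * Real.pi * y))) +
        12 * Real.pi * GS (Real.exp (-(12 * Real.pi * y))))) y := by
      have d0 : HasDerivAt (fun y : ℝ => -(2 * Real.pi * y)) (-(2 * Real.pi)) y := dlin _ _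
      have d2 := LL_deriv (c := 2 * Real.pi) (by positivity) hy
      have d4 := LL_deriv (c := 4 * Real.pi) (by positivity) hy
      have d6 := LL_deriv (c := 6 * Real.pi) (by positivity) hy
      have d12 := LL_deriv (c := 12 * Real.pi) (by positivity) hy
      exact d0.add ((((d2.add d4).add d6).add d12).const_mul 2)
    have hd := hg.exp
    have hev : ff =ᶠ[𝓝 y] fun z => Real.exp (g z) := by
      filter_upwards [lt_mem_nhds hy] with z hz
      exact ff_eq hz
    have hd2 := hd.congr_of_eventuallyEq hev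
    have e2 : Real.exp (-(4 * Real.pi * y)) = Real.exp (-(2 * Real.pi * y)) ^ 2 := by
      rw [← Real.exp_nat_mul]
      congr 1
      push_cast
      ring
    have e3 : Real.exp (-(6 * Real.pi * y)) = Real.exp (-(2 * Real.pi * y)) ^ 3 := by
      rw [← Real.exp_nat_mul]
      congr 1
      push_cast
      ring
    have e6 : Real.exp (-(12 * Real.pi * y)) = Real.exp (-(2 * Real.pi * y)) ^ 6 := by
      rw [← Real.exp_nat_mul]
      congr 1
      push_cast
      ring
    rw [e2, e3, e6, ← ff_eq hy] at hd2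
    refine hd2.congr_deriv ?_
    rw [PS, PS, PS, PS]
    ring
  · have h2 := LL_tendsto (c := 2 * Real.pi) (by positivity)
    have h4 := LL_tendsto (c := 4 * Real.pi) (by positivity)
    have h6 := LL_tendsto (c := 6 * Real.pi) (by positivity)
    have h12 := LL_tendsto (c := 12 * Real.pi) (by positivity)
    have h := (((h2.add h4).add h6).add h12).const_mul 2
    have h' := (Real.continuous_exp.tendsto _).comp h
    have e0 : Real.exp (2 * (0 + 0 + 0 + 0)) = 1 := by
      norm_num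
    rw [e0] at h'
    refine h'.congr' ?_
    filter_upwards [eventually_gt_atTop 0] with z hz
    rw [ff_eq hz, ← Real.exp_add, g, Function.comp_apply]
    congr 1
    ring

end ECC.PkETA
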