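import Pool.Agent.Helper2.EC_C.Basic

/-! MP_ecc237_nt, Part C, packet K3. -/

set_option autoImplicit false

open MeasureTheory Filter Topology Set

namespace ECC.PkK3

open EC237

theorem tri (n : ℤ) : n % 3 = 0 ∨ n % 3 = 1 ∨ n % 3 = 2 := by omega

theorem chi_neg (n : ℤ) : chi (-n) = -chi n := by
  rcases tri n with h | h | h
  · have h' : (-n) % 3 = 0 := by omega
    simp [chi, h, h']
  · have h' : (-n) % 3 = 2 := by omega
    simp [chi, h, h']
  · have h' : (-n) % 3 = 1 := by omega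
    simp [chi, h, h']

theorem chi_add (a b : ℤ) : chi (a + b) = chi a * e3 b + e3 a * chi b ∧
    chi (a - b) = chi a * e3 b - e3 a * chi b := by
  rcases tri a with ha | ha | ha <;> rcases tri b with hb | hb | hb
  · have h1 : (a + b) % 3 = 0 := by omega
    have h2 : (a - b) % 3 = 0 := by omega
    simp [chi, e3, ha, hb, h1, h2]
  · have h1 : (a + b) % 3 = 1 := by omega
    have h2 : (a - b) % 3 = 2 := by omega
    simp [chi, e3, ha, hb, h1, h2]
  · have h1 : (a + b) % 3 = 2 := by omega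
    have h2 : (a - b) % 3 = 1 := by omega
    simp [chi, e3, ha, hb, h1, h2]
  · have h1 : (a + b) % 3 = 1 := by omega
    have h2 : (a - b) % 3 = 1 := by omega
    simp [chi, e3, ha, hb, h1, h2]
  · have h1 : (a + b) % 3 = 2 := by omega
    have h2 : (a - b) % 3 = 0 := by omega
    constructor <;> norm_num [chi, e3, ha, hb, h1, h2]
  · have h1 : (a + b) % 3 = 0 := by omega
    have h2 : (a - b) % 3 = 2 := by omega
    constructor <;> norm_num [chi, e3, ha, hb, h1, h2]
  · have h1 : (a + b) % 3 = 2 := by omega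
    have h2 : (a - b) % 3 = 2 := by omega
    simp [chi, e3, ha, hb, h1, h2]
  · have h1 : (a + b) % 3 = 0 := by omega
    have h2 : (a - b) % 3 = 1 := by omega
    constructor <;> norm_num [chi, e3, ha, hb, h1, h2]
  · have h1 : (a + b) % 3 = 1 := by omega
    have h2 : (a - b) % 3 = 0 := by omega
    constructor <;> norm_num [chi, e3, ha, hb, h1, h2]

theorem sum_chi (M : ℕ) (hM : 1 ≤ M) :
    ∑ j ∈ Finset.Ico 1 M, (((j:ℤ)):ℝ) * chi (j:ℤ) =
      chi (M:ℤ) / 3 - (M:ℝ) / 3 * e3 (M:ℤ) - 1 / 2 * ((M:ℝ) * chi (M:ℤ)) := by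
  induction M, hM using Nat.le_induction with
  | base =>
    simp [chi, e3]
    norm_num
  | succ M hM ih =>
    rw [Finset.sum_Ico_succ_top hM, ih]
    rcases tri (M:ℤ) with h | h | h
    · have h' : ((M + 1 : ℕ) : ℤ) % 3 = 1 := by push_cast; omega
      simp only [chi, e3, h, h']
      push_cast
      norm_num
      ring
    · have h' : ((M + 1 : ℕ) : ℤ) % 3 = 2 := by push_cast; omega
      simp only [chi, e3, h, h']
      push_cast
      norm_num
      ring
    · have h' : ((M + 1 : ℕ) : ℤ) % 3 = 0 := by push_cast; omega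
      simp only [chi, e3, h, h']
      push_cast
      norm_num
      ring

theorem LS_M (q : ℝ) : LS (fun M _ => (M:ℝ)) q = GS q := by
  rw [GS, ← LS_swap (fun _ ν => (ν:ℝ))]

theorem s_eq {q : ℝ} (hq : |q| < 1) : LS (fun M _ => (M:ℝ) * e3 (M:ℤ)) q =
    -1 / 2 * GS q + 9 / 2 * GS (q ^ 3) := by
  have h1 : LS (fun M _ => (M:ℝ) * e3 (M:ℤ)) q =
      LS (fun M _ => -1 / 2 * (M:ℝ) + 3 / 2 * (if 3 ∣ M then (M:ℝ) else 0)) q := by
    refine LS_congr (fun M ν _ _ => ?_) q
    by_cases h : 3 ∣ M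
    · have h' : (M:ℤ) % 3 = 0 := by omega
      simp only [e3, h', h, if_true]
      ring
    · have h' : ¬ (M:ℤ) % 3 = 0 := by omega
      simp only [e3, h', h, if_false]
      ring
  rw [h1, LS_add ((PG.const (-1 / 2)).mul PG.M) ((PG.const (3 / 2)).mul (PG.M.ite fun M _ => 3 ∣ M)) hq,
    LS_mul_left, LS_mul_left, LS_sieveM (fun M _ => (M:ℝ)) (d := 3) (by norm_num) q]
  have h2 : LS (fun M _ => (((3 * M : ℕ)) : ℝ)) (q ^ 3) = 3 * GS (q ^ 3) := by
    have h3 : LS (fun M _ => (((3 * M : ℕ)) : ℝ)) (q ^ 3) = LS (fun M _ => 3 * (M:ℝ)) (q ^ 3) :=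
      LS_congr (fun M ν _ _ => by push_cast; ring) _
    rw [h3, LS_mul_left, LS_M]
  rw [h2, LS_M]
  ring

/-- K3. -/
theorem k3 (ram : G_RAM) : G_K3 := by
  intro q hq
  have hchi : ∀ n : ℤ, |chi n| ≤ 1 := abs_chi_le
  have he3 : ∀ n : ℤ, |e3 n| ≤ 1 := abs_e3_le
  have b1 : ∀ n : ℤ, (1:ℝ) ≤ |(n:ℝ)| + 1 := fun n => by
    have := abs_nonneg (n:ℝ)
    linarith
  have key := ram (fun n => (n:ℝ) * chi n) 2
    (fun i n => if i = 0 then -2 * chi n else -2 * ((n:ℝ) * e3 n))
    (fun i n => if i = 0 then (n:ℝ) * e3 n else chi n) 2 1 ?_ ?_ ?_ ?_ ?_ q hq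
  · rw [Finset.sum_range_succ, Finset.sum_range_succ, Finset.sum_range_zero] at key
    simp only [if_true, one_ne_zero, if_false, Int.cast_zero, zero_mul, zero_add,
      Int.cast_natCast] at key
    rw [LS_mul_left, LS_mul_left] at key
    have e1 : LS (fun M ν => (ν:ℝ) * ((M:ℝ) * chi (M:ℤ))) q =
        LS (fun M ν => (M:ℝ) * (ν:ℝ) * chi (M:ℤ)) q :=
      LS_congr (fun M ν _ _ => by ring) q
    have e2 : LS (fun M _ => ((M:ℝ) + 1) * ((M:ℝ) * chi (M:ℤ))) q =
        LS (fun M _ => chi (M:ℤ) * (M:ℝ) ^ 2) q + LS (fun M _ => (M:ℝ) * chi (M:ℤ)) q := by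
      rw [← LS_add (PG.chi.mul (PG.M.pow 2)) (PG.M.mul PG.chi) hq]
      exact LS_congr (fun M ν _ _ => by ring) q
    have e3' : LS (fun M _ => ∑ j ∈ Finset.Ico 1 M, (j:ℝ) * chi (j:ℤ)) q =
        1 / 3 * LS (fun M _ => chi (M:ℤ)) q - 1 / 3 * LS (fun M _ => (M:ℝ) * e3 (M:ℤ)) q -
          1 / 2 * LS (fun M _ => (M:ℝ) * chi (M:ℤ)) q := by
      rw [← LS_mul_left, ← LS_mul_left, ← LS_mul_left,
        ← LS_sub ((PG.const _).mul PG.chi) ((PG.const _).mul (PG.M.mul PG.e3)) hq,
        ← LS_sub (((PG.const _).mul PG.chi).sub ((PG.const _).mul (PG.M.mul PG.e3)))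
          ((PG.const _).mul (PG.M.mul PG.chi)) hq]
      refine LS_congr (fun M ν hM _ => ?_) q
      have := sum_chi M hM
      simp only [Int.cast_natCast] at this
      rw [this]
      ring
    rw [e1, e2, e3', s_eq hq] at key
    rw [aT, aS, bS]
    linear_combination (-3 : ℝ) * key
  · intro n
    push_cast
    rw [chi_neg]
    ring
  · intro n
    rw [abs_mul, pow_one]
    have := mul_le_mul_of_nonneg_left (hchi n) (abs_nonneg (n:ℝ))
    have := abs_nonneg (n:ℝ)
    linarith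
  · intro i n
    rw [pow_one]
    have h0 := abs_nonneg (n:ℝ)
    have h1 := mul_le_mul_of_nonneg_left (he3 n) h0
    have h2 := hchi n
    split_ifs
    · rw [abs_mul]
      norm_num
      linarith
    · rw [abs_mul, abs_mul]
      norm_num
      linarith
  · intro i n
    rw [pow_one]
    have h0 := abs_nonneg (n:ℝ)
    have h1 := mul_le_mul_of_nonneg_left (he3 n) h0
    have h2 := hchi n
    split_ifs
    · rw [abs_mul]
      linarith
    · linarith
  · intro a b _ _
    rw [Finset.sum_range_succ, Finset.sum_range_succ, Finset.sum_range_zero]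
    obtain ⟨h1, h2⟩ := chi_add a b
    simp only [if_true, one_ne_zero, if_false]
    rw [h1, h2]
    push_cast
    ring

end ECC.PkK3
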